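import Pool.Agent.Lib.MP_3c9215_al.B.All

set_option autoImplicit false

/-!
# MP_3c9215_al: subgroups without involutions invariant under one involution of `V`

The proof is in `Pool/Agent/Lib/MP_3c9215_al/B` (statements with proofs in words in `B/Spec`, `B/SpecFour`).
-/

namespace Pool.Agent.Results.MP_3c9215_al.InvariantSubgroups

open Pool.Agent.Klein Pool.Agent.KleinB

/-- a four-group has an element different from `1` and `v` -/
lemma exists_b {G : Type} [Group G] (V : Subgroup G) (hV : Nat.card V = 4) (v : G) :
    ∃ b ∈ V, b ≠ 1 ∧ b ≠ v := by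
  have hfin : Finite V := Nat.finite_of_card_ne_zero (by omega)
  have hfs : (V : Set G).Finite := Set.toFinite _
  by_contra hcon
  push Not at hcon
  have hs : (V : Set G) ⊆ {1, v} := by
    intro b hb
    by_cases hb1 : b = 1
    · exact Or.inl hb1
    · exact Or.inr (hcon b hb hb1)
  have h1 : Set.ncard (V : Set G) ≤ Set.ncard ({1, v} : Set G) :=
    Set.ncard_le_ncard hs (Set.toFinite _)
  have h2 := Set.ncard_insert_le (1 : G) {v}
  rw [Set.ncard_singleton] at h2
  have h3 : Set.ncard (V : Set G) = Nat.card V := rfl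
  rw [h3, hV] at h1
  omega

/-- the corollary for the question -/
lemma signalN (h : S_BLF) :
    ∀ (G : Type) [Group G], Monoid.IsTorsion G →
      ∀ V : Subgroup G, Nat.card V = 4 → ¬ IsCyclic V →
        Subgroup.centralizer (V : Set G) = V →
          ∀ v ∈ V, v ≠ 1 →
            (∀ g : G, g * v = v * g → (∀ w ∈ V, g * w * g⁻¹ ∈ V) → g ∈ V) →
              ∀ K : Subgroup G, (∀ k ∈ K, k * k = 1 → k = 1) → (∀ k ∈ K, v * k * v⁻¹ ∈ K) →
                ∀ H : Subgroup G, H ≤ K → H.FG → Finite H := by
  intro G _ hG V hV hc hcent v hv hv1 hN K hK hvK H hHK hH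
  obtain ⟨b, hbV, hb1, hbv⟩ := exists_b V hV v
  -- all elements of `V` commute and `b v b = v`
  have hcomm : ∀ x ∈ V, ∀ y ∈ V, x * y = y * x := by
    intro x hx y hy
    have h1 : x ∈ Subgroup.centralizer (V : Set G) := by rw [hcent]; exact hx
    exact (Subgroup.mem_centralizer_iff.1 h1 y hy).symm
  have hall : ∀ w ∈ V, w = 1 ∨ w = v ∨ w = b ∨ w = b * v := by
    classical
    intro w hw
    by_contra hcon
    push Not at hcon
    obtain ⟨c1, c2, c3, c4⟩ := hcon
    have hfin : Finite V := Nat.finite_of_card_ne_zero (by omega)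
    have hfs : (V : Set G).Finite := Set.toFinite _
    have hsub : (({w, b * v, b, v, 1} : Finset G) : Set G) ⊆ (V : Set G) := by
      intro x hx
      simp only [Finset.coe_insert, Finset.coe_singleton, Set.mem_insert_iff,
        Set.mem_singleton_iff] at hx
      rcases hx with rfl | rfl | rfl | rfl | rfl
      · exact hw
      · exact V.mul_mem hbV hv
      · exact hbV
      · exact hv
      · exact V.one_mem
    have hbv1 : b * v ≠ 1 := by
      intro e
      have h1 : v * v = 1 := by
        have hexp := orderOf_dvd_natCard (⟨v, hv⟩ : V)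
        rw [hV] at hexp
        -- `b = v⁻¹`; the group would be generated by `v`
        by_contra hvv
        apply hc
        have h2 : orderOf (⟨v, hv⟩ : V) = 4 := by
          have h4 : orderOf (⟨v, hv⟩ : V) ≤ 4 := Nat.le_of_dvd (by norm_num) hexp
          have h5 : orderOf (⟨v, hv⟩ : V) ≠ 1 := by
            intro e1
            exact hv1 (congrArg Subtype.val (orderOf_eq_one_iff.1 e1))
          have h6 : orderOf (⟨v, hv⟩ : V) ≠ 2 := by
            intro e1
            apply hvv
            have := pow_orderOf_eq_one (⟨v, hv⟩ : V)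
            rw [e1, pow_two] at this
            exact congrArg Subtype.val this
          have h7 : orderOf (⟨v, hv⟩ : V) ≠ 3 := by
            intro e1
            rw [e1] at hexp
            omega
          have h8 : 0 < orderOf (⟨v, hv⟩ : V) := orderOf_pos _
          omega
        exact isCyclic_of_orderOf_eq_card (⟨v, hv⟩ : V) (by rw [h2, hV])
      apply hbv
      calc b = b * v * v⁻¹ := by group
        _ = v⁻¹ := by rw [e, one_mul]
        _ = v := inv_eq_of_mul_eq_one_left h1
    have hcard : ({w, b * v, b, v, 1} : Finset G).card = 5 := by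
      rw [Finset.card_insert_of_notMem, Finset.card_insert_of_notMem,
        Finset.card_insert_of_notMem, Finset.card_insert_of_notMem, Finset.card_singleton]
      · simpa using hv1
      · simp only [Finset.mem_insert, Finset.mem_singleton, not_or]
        exact ⟨hbv, hb1⟩
      · simp only [Finset.mem_insert, Finset.mem_singleton, not_or]
        refine ⟨fun e => hv1 (by simpa using e), fun e => hb1 (by simpa using e), hbv1⟩
      · simp only [Finset.mem_insert, Finset.mem_singleton, not_or]
        exact ⟨c4, c3, c2, c1⟩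
    have h9 := Set.ncard_le_ncard hsub hfs
    rw [Set.ncard_coe_finset, hcard] at h9
    have h10 : Set.ncard (V : Set G) = Nat.card V := rfl
    omega
  have hf : ∀ g : G, g * v = v * g → g * b * g⁻¹ ≠ b * v := by
    intro g hg e
    have hgV : g ∈ V := by
      refine hN g hg ?_
      intro w hw
      have hgv : g * v * g⁻¹ = v := by rw [hg]; group
      rcases hall w hw with rfl | rfl | rfl | rfl
      · simp
      · rw [hgv]; exact hv
      · rw [e]; exact V.mul_mem hbV hv
      · have : g * (b * v) * g⁻¹ = (g * b * g⁻¹) * (g * v * g⁻¹) := by group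
        rw [this, e, hgv]
        exact V.mul_mem (V.mul_mem hbV hv) hv
    have h1 : g * b * g⁻¹ = b := by rw [hcomm g hgV b hbV]; group
    rw [h1] at e
    exact hv1 (by simpa using e.symm)
  have u := vb_wf G hG V hV hc hcent v b hv hbV hv1 hb1 hbv hf
  have vinv : v⁻¹ = v := inv_eq_of_mul_eq_one_left u.aa
  have hodd : ∀ k ∈ K, OddO k := by
    intro k hk
    obtain ⟨n, hn1, hn⟩ := u.per k
    have hpos : 0 < orderOf k := orderOf_pos_iff.mpr (isOfFinOrder_iff_pow_eq_one.mpr ⟨n, hn1, hn⟩)
    refine ⟨orderOf k, ?_, pow_orderOf_eq_one k⟩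
    by_contra hno
    rw [Nat.not_odd_iff_even] at hno
    obtain ⟨m, hm⟩ := hno
    have h1 : k ^ m * k ^ m = 1 := by rw [← pow_add, ← hm, pow_orderOf_eq_one]
    have h2 := hK _ (K.pow_mem hk m) h1
    have h3 := Nat.le_of_dvd (by omega) (orderOf_dvd_of_pow_eq_one h2)
    omega
  let φ : MulAut K :=
    { toFun := fun k => ⟨v * k * v⁻¹, hvK k k.2⟩
      invFun := fun k => ⟨v * k * v⁻¹, hvK k k.2⟩
      left_inv := by
        intro k
        apply Subtype.ext
        show v * (v * k * v⁻¹) * v⁻¹ = k
        calc v * (v * k * v⁻¹) * v⁻¹ = (v * v) * k * (v * v)⁻¹ := by group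
          _ = k := by rw [u.aa]; group
      right_inv := by
        intro k
        apply Subtype.ext
        show v * (v * k * v⁻¹) * v⁻¹ = k
        calc v * (v * k * v⁻¹) * v⁻¹ = (v * v) * k * (v * v)⁻¹ := by group
          _ = k := by rw [u.aa]; group
      map_mul' := by
        intro k l
        apply Subtype.ext
        show v * (k * l) * v⁻¹ = (v * k * v⁻¹) * (v * l * v⁻¹)
        group }
  have hφ : ∀ k : K, ((φ k : K) : G) = v * k * v⁻¹ := fun _ => rfl
  have hcomm : ∀ k : K, φ k = k → (k : G) * v = v * k := by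
    intro k hk
    have h1 : v * (k : G) * v⁻¹ = k := by rw [← hφ, hk]
    calc (k : G) * v = (v * k * v⁻¹) * v := by rw [h1]
      _ = v * k := by group
  have hfin : Finite (H.subgroupOf K) := by
    refine h K φ ?_ ?_ ?_ ?_ (H.subgroupOf K) ?_
    · intro k
      obtain ⟨m, hm, hm2⟩ := hodd k k.2
      rw [isOfFinOrder_iff_pow_eq_one]
      exact ⟨m, hm.pos, Subtype.ext (by simpa using hm2)⟩
    · intro k hk
      exact Subtype.ext (hK k k.2 (congrArg Subtype.val hk))
    · apply MulEquiv.ext
      intro k
      apply Subtype.ext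
      show v * (v * k * v⁻¹) * v⁻¹ = k
      calc v * (v * k * v⁻¹) * v⁻¹ = (v * v) * k * (v * v)⁻¹ := by group
        _ = k := by rw [u.aa]; group
    · intro k l hk hl
      exact Subtype.ext (u.comm (hodd k k.2) (hodd l l.2) (hcomm k hk) (hcomm l hl))
    · rw [← Group.fg_iff_subgroup_fg] at hH ⊢
      exact Group.fg_of_surjective (f := (Subgroup.subgroupOfEquivOfLe hHK).symm.toMonoidHom)
        (Subgroup.subgroupOfEquivOfLe hHK).symm.surjective
  exact Finite.of_equiv _ (Subgroup.subgroupOfEquivOfLe hHK).toEquiv

/-- Let `G` be a periodic group, `V` a self-centralizing four-subgroup and `v` an involution of `V` such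
that `V` is its own normalizer in the centralizer of `v`. Then every subgroup of `G` which has no
involutions and is normalized by `v` is locally finite. -/
theorem result :
    ∀ (G : Type) [Group G], Monoid.IsTorsion G →
      ∀ V : Subgroup G, Nat.card V = 4 → ¬ IsCyclic V →
        Subgroup.centralizer (V : Set G) = V →
          ∀ v ∈ V, v ≠ 1 →
            (∀ g : G, g * v = v * g → (∀ w ∈ V, g * w * g⁻¹ ∈ V) → g ∈ V) →
              ∀ K : Subgroup G, (∀ k ∈ K, k * k = 1 → k = 1) → (∀ k ∈ K, v * k * v⁻¹ ∈ K) →
                ∀ H : Subgroup G, H ≤ K → H.FG → Finite H :=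
  signalN bLF

end Pool.Agent.Results.MP_3c9215_al.InvariantSubgroups
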