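import Pool.Agent.Lib.MP_3c9215_al.All
import Pool.Agent.Lib.MP_3c9215_al.Sep
import Pool.Agent.Lib.MP_3c9215_al.CTor
import Pool.Agent.Lib.MP_3c9215_al.U2
import Pool.Agent.Lib.MP_3c9215_al.U3

set_option autoImplicit false

/-!
# MP_3c9215_al: periodic groups with a self-centralizing four-subgroup, the unfused case

The proof is in `Pool/Agent/Lib/MP_3c9215_al` (statements with proofs in words in `Spec1`, `Spec2`, `SpecCore`,
`SpecU`).
-/

namespace Pool.Agent.Results.MP_3c9215_al.UnfusedFourGroup

/-- A periodic group with a self-centralizing four-subgroup whose involutions are pairwise non-conjugate is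
locally finite. -/
theorem result :
    ∀ (G : Type) [Group G], Monoid.IsTorsion G →
      ∀ V : Subgroup G, Nat.card V = 4 → ¬ IsCyclic V →
        Subgroup.centralizer (V : Set G) = V →
          (∀ v ∈ V, ∀ w ∈ V, IsConj v w → v = w) →
            ∀ H : Subgroup G, H.FG → Finite H := by
  have hU2 := Klein.u2 Klein.u1
  have hU3 := Klein.u3 Klein.u1 hU2
  have h := Klein.all_parts Klein.sep
    (Klein.cTor Klein.cBasic (Klein.cFin Klein.cBasic) (Klein.cUni Klein.cBasic)) hU2 hU3
  exact Klein.unfused_lf h.1 h.2

end Pool.Agent.Results.MP_3c9215_al.UnfusedFourGroup
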